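import Pool.Agent.Q77.LU.StmU
import Pool.Agent.Q2.LU.Adj

set_option autoImplicit false

/-! # LU job EVN: small covariant energy of n orthonormal fields forces small adjoint holonomy -/

namespace Pool.Agent.Q151.LU.Evn

open Matrix Finset
open Pool.Agent.Q77.LU Pool.Agent.Q2.LU
open scoped Matrix.Norms.Frobenius

noncomputable section

section mats

variable {m k : Type} [Fintype m] [Fintype k] [DecidableEq m] [DecidableEq k]

theorem nsq (A : Matrix m k ℝ) : ‖A‖ ^ 2 = ∑ i, ∑ j, A i j ^ 2 := by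
  rw [Matrix.frobenius_norm_def]
  have h0 : 0 ≤ ∑ i, ∑ j, ‖A i j‖ ^ (2 : ℝ) :=
    sum_nonneg fun i _ => sum_nonneg fun j _ => Real.rpow_nonneg (norm_nonneg _) _
  rw [← Real.sqrt_eq_rpow, Real.sq_sqrt h0]
  refine sum_congr rfl fun i _ => sum_congr rfl fun j _ => ?_
  rw [Real.rpow_two, Real.norm_eq_abs, sq_abs]

theorem nsq_trace (A : Matrix m k ℝ) : ‖A‖ ^ 2 = trace (Aᵀ * A) := by
  rw [nsq, Matrix.trace, sum_comm]
  refine sum_congr rfl fun j _ => ?_
  rw [Matrix.diag_apply, Matrix.mul_apply]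
  refine sum_congr rfl fun i _ => ?_
  rw [Matrix.transpose_apply]; ring

theorem norm_orth {O : Matrix m m ℝ} (h : Oᵀ * O = 1) (A : Matrix m k ℝ) : ‖O * A‖ = ‖A‖ := by
  have h1 : ‖O * A‖ ^ 2 = ‖A‖ ^ 2 := by
    rw [nsq_trace, nsq_trace, Matrix.transpose_mul]
    congr 1
    calc Aᵀ * Oᵀ * (O * A) = Aᵀ * (Oᵀ * O) * A := by simp only [Matrix.mul_assoc]
      _ = Aᵀ * A := by rw [h, Matrix.mul_one]
  exact (pow_left_inj₀ (norm_nonneg _) (norm_nonneg _) two_ne_zero).1 h1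

theorem norm_tr (A : Matrix m k ℝ) : ‖Aᵀ‖ = ‖A‖ := by
  have h1 : ‖Aᵀ‖ ^ 2 = ‖A‖ ^ 2 := by
    rw [nsq, nsq, sum_comm]
    rfl
  exact (pow_left_inj₀ (norm_nonneg _) (norm_nonneg _) two_ne_zero).1 h1

theorem norm_swap (A : Matrix m m ℝ) (c : ℝ) :
    ‖A * Aᵀ - c • (1 : Matrix m m ℝ)‖ = ‖Aᵀ * A - c • (1 : Matrix m m ℝ)‖ := by
  have h1 : ‖A * Aᵀ - c • (1 : Matrix m m ℝ)‖ ^ 2 = ‖Aᵀ * A - c • (1 : Matrix m m ℝ)‖ ^ 2 := by
    rw [nsq_trace, nsq_trace]
    have e1 : (A * Aᵀ - c • (1 : Matrix m m ℝ))ᵀ * (A * Aᵀ - c • (1 : Matrix m m ℝ)) =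
        A * Aᵀ * (A * Aᵀ) - (2 * c) • (A * Aᵀ) + (c * c) • (1 : Matrix m m ℝ) := by
      simp only [Matrix.transpose_sub, Matrix.transpose_mul, Matrix.transpose_transpose,
        Matrix.transpose_smul, Matrix.transpose_one, Matrix.sub_mul, Matrix.mul_sub,
        Matrix.smul_mul, Matrix.mul_smul, Matrix.one_mul, Matrix.mul_one]
      module
    have e2 : (Aᵀ * A - c • (1 : Matrix m m ℝ))ᵀ * (Aᵀ * A - c • (1 : Matrix m m ℝ)) =
        Aᵀ * A * (Aᵀ * A) - (2 * c) • (Aᵀ * A) + (c * c) • (1 : Matrix m m ℝ) := by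
      simp only [Matrix.transpose_sub, Matrix.transpose_mul, Matrix.transpose_transpose,
        Matrix.transpose_smul, Matrix.transpose_one, Matrix.sub_mul, Matrix.mul_sub,
        Matrix.smul_mul, Matrix.mul_smul, Matrix.one_mul, Matrix.mul_one]
      module
    rw [e1, e2]
    simp only [Matrix.trace_add, Matrix.trace_sub, Matrix.trace_smul]
    have e3 : trace (A * Aᵀ) = trace (Aᵀ * A) := Matrix.trace_mul_comm _ _
    have e4 : trace (A * Aᵀ * (A * Aᵀ)) = trace (Aᵀ * A * (Aᵀ * A)) := by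
      rw [Matrix.mul_assoc, Matrix.trace_mul_comm]
      congr 1
      simp only [Matrix.mul_assoc]
    rw [e3, e4]
  exact (pow_left_inj₀ (norm_nonneg _) (norm_nonneg _) two_ne_zero).1 h1

end mats

section lat

variable {N n D l : ℕ} {G : Subgroup (UU N)}

/-- the matrix of the fields at the point `x` -/
def Ph (φ : Fin n → (Fin D → ZMod l) × Fin n → ℝ) (x : Fin D → ZMod l) :
    Matrix (Fin n) (Fin n) ℝ := fun c a => φ a (x, c)

theorem cov_mulVec [NeZero l] (B : LieBasis G n) (U : Link D l → G) (i : Fin D)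
    (ψ : (Fin D → ZMod l) × Fin n → ℝ) (x : Fin D → ZMod l) (c : Fin n) :
    ((cov B U i - 1).mulVec ψ) (x, c) =
      (∑ b, AdM B (U (x, i)) c b * ψ (x + unitv i, b)) - ψ (x, c) := by
  rw [Matrix.sub_mulVec, Pi.sub_apply, Matrix.one_mulVec]
  congr 1
  rw [Matrix.mulVec, dotProduct, Fintype.sum_prod_type]
  rw [sum_eq_single (x + unitv i)]
  · refine sum_congr rfl fun b _ => ?_
    rw [cov_apply, if_pos rfl]
  · intro y _ hy
    refine sum_eq_zero fun b _ => ?_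
    rw [cov_apply, if_neg hy, zero_mul]
  · intro h
    exact absurd (mem_univ _) h

theorem lap_energy [NeZero l] (B : LieBasis G n) (U : Link D l → G)
    (ψ : (Fin D → ZMod l) × Fin n → ℝ) :
    ∑ q, ψ q * ((lapU B U).mulVec ψ) q = ∑ i, ∑ q, ((cov B U i - 1).mulVec ψ) q ^ 2 := by
  have h1 : ∑ q, ψ q * ((lapU B U).mulVec ψ) q = ψ ⬝ᵥ (lapU B U).mulVec ψ := rfl
  rw [h1, lapU, Matrix.sum_mulVec, dotProduct_sum]
  refine sum_congr rfl fun i _ => ?_
  rw [← Matrix.mulVec_mulVec, Matrix.dotProduct_mulVec, Matrix.vecMul_transpose]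
  refine sum_congr rfl fun q _ => ?_
  ring

theorem step [NeZero l] (B : LieBasis G n) (U : Link D l → G) (lam : ℝ)
    (φ : Fin n → (Fin D → ZMod l) × Fin n → ℝ)
    (h : ∀ i, ∑ q, φ i q * ((lapU B U).mulVec (φ i)) q ≤ lam) (x : Fin D → ZMod l) (i : Fin D) :
    ‖AdM B (U (x, i)) * Ph φ (x + unitv i) - Ph φ x‖ ^ 2 ≤ n * lam := by
  rw [nsq, sum_comm]
  have h1 : ∀ a : Fin n, ∑ c, (AdM B (U (x, i)) * Ph φ (x + unitv i) - Ph φ x) c a ^ 2 ≤ lam := by
    intro a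
    refine le_trans ?_ (h a)
    rw [lap_energy]
    refine le_trans ?_ (single_le_sum (f := fun i => ∑ q, ((cov B U i - 1).mulVec (φ a)) q ^ 2)
      (fun j _ => sum_nonneg fun q _ => sq_nonneg _) (mem_univ i))
    rw [Fintype.sum_prod_type]
    refine le_trans (le_of_eq ?_) (single_le_sum
      (f := fun x => ∑ c, ((cov B U i - 1).mulVec (φ a)) (x, c) ^ 2)
      (fun j _ => sum_nonneg fun q _ => sq_nonneg _) (mem_univ x))
    refine sum_congr rfl fun c _ => ?_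
    rw [cov_mulVec, Matrix.sub_apply, Matrix.mul_apply]
    rfl
  refine (sum_le_sum fun a _ => h1 a).trans (le_of_eq ?_)
  rw [sum_const, card_univ, Fintype.card_fin, nsmul_eq_mul]

theorem fro_eq (B : LieBasis G n) (g : G) :
    ∑ a, fro2 (Pool.Agent.Q77.LU.mt g * B.X a * (Pool.Agent.Q77.LU.mt g)ᴴ - B.X a) = ‖AdM B g - 1‖ ^ 2 := by
  rw [nsq, sum_comm]
  refine sum_congr rfl fun a _ => ?_
  have h1 : Pool.Agent.Q77.LU.mt g * B.X a * (Pool.Agent.Q77.LU.mt g)ᴴ - B.X a = ∑ b, (AdM B g - 1) b a • B.X b := by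
    rw [conj_expand]
    simp only [Matrix.sub_apply, sub_smul, sum_sub_distrib]
    congr 1
    rw [sum_eq_single a]
    · rw [Matrix.one_apply_eq, one_smul]
    · intro b _ hb
      rw [Matrix.one_apply_ne hb, zero_smul]
    · intro h
      exact absurd (mem_univ a) h
  rw [h1]
  obtain ⟨t, ht⟩ : ∃ t : Fin n → ℝ, t = fun b => (AdM B g - 1) b a := ⟨_, rfl⟩
  have ht' : ∀ b, (AdM B g - 1) b a = t b := fun b => by rw [ht]
  simp only [ht']
  unfold fro2
  rw [Matrix.conjTranspose_sum, sum_mul, Matrix.trace_sum, Complex.re_sum]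
  refine sum_congr rfl fun b _ => ?_
  rw [mul_sum, Matrix.trace_sum, Complex.re_sum, sum_eq_single b]
  · rw [Matrix.conjTranspose_smul, Matrix.mul_smul, Matrix.smul_mul, Matrix.trace_smul,
      Matrix.trace_smul, Complex.smul_re, Complex.smul_re, B.orth, if_pos rfl]
    simp only [star_trivial, smul_eq_mul, mul_one]
    ring
  · intro c _ hc
    rw [Matrix.conjTranspose_smul, Matrix.mul_smul, Matrix.smul_mul, Matrix.trace_smul,
      Matrix.trace_smul, Complex.smul_re, Complex.smul_re, B.orth, if_neg (Ne.symm hc)]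
    simp
  · intro h
    exact absurd (mem_univ b) h

theorem ad_le (B : LieBasis G n) (g : G) : ‖AdM B g - 1‖ ^ 2 ≤ 4 * n := by
  rw [nsq, orth_dist (AdM_orth B g)]
  have h1 : trace (-AdM B g) ≤ n := by
    apply trace_le
    rw [Matrix.transpose_neg, neg_mul_neg, AdM_orth]
  rw [Matrix.trace_neg] at h1
  linarith

theorem wind_bound [NeZero l] (B : LieBasis G n) (U : Link D l → G) (μ : ℝ)
    (φ : Fin n → (Fin D → ZMod l) × Fin n → ℝ)
    (h : ∀ x i, ‖AdM B (U (x, i)) * Ph φ (x + unitv i) - Ph φ x‖ ≤ μ)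
    (x : Fin D → ZMod l) (i : Fin D) (k : ℕ) :
    ‖AdM B ((List.ofFn fun s : Fin k => U (x + (s : ℕ) • unitv i, i)).prod) *
      Ph φ (x + k • unitv i) - Ph φ x‖ ≤ k * μ := by
  induction k with
  | zero => simp [AdM_one]
  | succ k ih =>
    have h1 : (List.ofFn fun s : Fin (k + 1) => U (x + (s : ℕ) • unitv i, i)).prod =
        (List.ofFn fun s : Fin k => U (x + (s : ℕ) • unitv i, i)).prod *
          U (x + k • unitv i, i) := by
      rw [List.ofFn_succ', List.concat_eq_append, List.prod_append, List.prod_singleton]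
      rfl
    obtain ⟨W, hW⟩ : ∃ W, W = (List.ofFn fun s : Fin k => U (x + (s : ℕ) • unitv i, i)).prod :=
      ⟨_, rfl⟩
    rw [h1, ← hW, AdM_mul]
    rw [← hW] at ih
    have h2 : AdM B W * AdM B (U (x + k • unitv i, i)) * Ph φ (x + (k + 1) • unitv i) - Ph φ x =
        AdM B W * (AdM B (U (x + k • unitv i, i)) * Ph φ (x + k • unitv i + unitv i) -
          Ph φ (x + k • unitv i)) + (AdM B W * Ph φ (x + k • unitv i) - Ph φ x) := by
      rw [Matrix.mul_sub, ← Matrix.mul_assoc, succ_nsmul, add_assoc]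
      abel
    rw [h2]
    refine (norm_add_le _ _).trans ?_
    rw [norm_orth (AdM_orth' B W)]
    have h3 := h (x + k • unitv i) i
    push_cast
    linarith

/-- joining two points by a path -/
theorem path_bound {A E : Type} [AddCommGroup A] [SeminormedAddCommGroup E] (S : A → E)
    (v : A) (c : ℝ) (h : ∀ x, ‖S (x + v) - S x‖ ≤ c) (k : ℕ) :
    ∀ x, ‖S (x + k • v) - S x‖ ≤ k * c := by
  induction k with
  | zero => intro x; simp
  | succ k ih =>
    intro x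
    have h1 : S (x + (k + 1) • v) - S x = (S (x + k • v + v) - S (x + k • v)) +
        (S (x + k • v) - S x) := by
      rw [succ_nsmul, add_assoc]; abel
    rw [h1]
    refine (norm_add_le _ _).trans ?_
    have h2 := h (x + k • v)
    have h3 := ih x
    push_cast
    linarith

theorem path_sum {A E ι : Type} [AddCommGroup A] [SeminormedAddCommGroup E] (S : A → E)
    (s : Finset ι) (v : ι → A) (c : ℝ) (h : ∀ i ∈ s, ∀ x, ‖S (x + v i) - S x‖ ≤ c) :
    ∀ x, ‖S (x + ∑ i ∈ s, v i) - S x‖ ≤ s.card * c := by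
  classical
  induction s using Finset.induction_on with
  | empty => intro x; simp
  | insert a s ha ih =>
    intro x
    rw [sum_insert ha, card_insert_of_notMem ha]
    have h1 : S (x + (v a + ∑ i ∈ s, v i)) - S x = (S (x + v a + ∑ i ∈ s, v i) - S (x + v a)) +
        (S (x + v a) - S x) := by
      rw [add_assoc]; abel
    rw [h1]
    refine (norm_add_le _ _).trans ?_
    have h2 := h a (mem_insert_self _ _) x
    have h3 := ih (fun i hi => h i (mem_insert_of_mem hi)) (x + v a)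
    push_cast
    linarith

theorem path_all [NeZero l] {E : Type} [SeminormedAddCommGroup E] (S : (Fin D → ZMod l) → E)
    (c : ℝ) (hc : 0 ≤ c) (h : ∀ x i, ‖S (x + unitv i) - S x‖ ≤ c) (x y : Fin D → ZMod l) :
    ‖S y - S x‖ ≤ D * (l * c) := by
  have h1 : y = x + ∑ i, ((y - x) i).val • (unitv i : Fin D → ZMod l) := by
    have : y - x = ∑ i, ((y - x) i).val • (unitv i : Fin D → ZMod l) := by
      ext j
      rw [Finset.sum_apply, Finset.sum_eq_single j]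
      · simp [unitv]
      · intro i _ hij
        simp [unitv, Pi.single_eq_of_ne hij.symm]
      · intro h
        exact absurd (mem_univ j) h
    rw [← this]; abel
  have h2 := path_sum S univ (fun i => ((y - x) i).val • (unitv i : Fin D → ZMod l)) (l * c)
    (fun i _ z => ?_) x
  · rw [← h1, card_univ, Fintype.card_fin] at h2
    exact h2
  · refine (path_bound S (unitv i) c (fun z => h z i) _ z).trans ?_
    apply mul_le_mul_of_nonneg_right _ hc
    exact_mod_cast (ZMod.val_lt ((y - x) i)).le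

theorem sum_S [NeZero l] (φ : Fin n → (Fin D → ZMod l) × Fin n → ℝ)
    (ho : ∀ i j, ∑ q, φ i q * φ j q = if i = j then 1 else 0) :
    ∑ x, (Ph φ x)ᵀ * Ph φ x = 1 := by
  ext a b
  rw [Matrix.sum_apply, Matrix.one_apply, ← ho a b, Fintype.sum_prod_type]
  rfl

theorem Ph_le [NeZero l] (φ : Fin n → (Fin D → ZMod l) × Fin n → ℝ)
    (ho : ∀ i j, ∑ q, φ i q * φ j q = if i = j then 1 else 0) (x : Fin D → ZMod l) :
    ‖Ph φ x‖ ^ 2 ≤ n := by
  rw [nsq, sum_comm]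
  have h1 : ∀ a : Fin n, ∑ c, Ph φ x c a ^ 2 ≤ 1 := by
    intro a
    have h2 := ho a a
    rw [if_pos rfl, Fintype.sum_prod_type] at h2
    rw [← h2]
    refine le_trans (le_of_eq ?_) (single_le_sum
      (f := fun x => ∑ c, φ a (x, c) * φ a (x, c))
      (fun j _ => sum_nonneg fun q _ => mul_self_nonneg _) (mem_univ x))
    refine sum_congr rfl fun c _ => ?_
    show φ a (x, c) ^ 2 = φ a (x, c) * φ a (x, c)
    ring
  refine (sum_le_sum fun a _ => h1 a).trans (le_of_eq ?_)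
  simp

theorem S_close [NeZero l] (B : LieBasis G n) (U : Link D l → G) (μ : ℝ) (hμ : 0 ≤ μ)
    (φ : Fin n → (Fin D → ZMod l) × Fin n → ℝ)
    (ho : ∀ i j, ∑ q, φ i q * φ j q = if i = j then 1 else 0)
    (h : ∀ x i, ‖AdM B (U (x, i)) * Ph φ (x + unitv i) - Ph φ x‖ ≤ μ)
    (x : Fin D → ZMod l) :
    ‖(Ph φ x)ᵀ * Ph φ x - ((l : ℝ) ^ D)⁻¹ • (1 : Matrix (Fin n) (Fin n) ℝ)‖ ≤
      D * (l * (2 * Real.sqrt n * μ)) := by
  have hP : ∀ x, ‖Ph φ x‖ ≤ Real.sqrt n := fun x => Real.le_sqrt_of_sq_le (Ph_le φ ho x)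
  have hn := Real.sqrt_nonneg (n : ℝ)
  have h1 : ∀ x i, ‖(Ph φ (x + unitv i))ᵀ * Ph φ (x + unitv i) - (Ph φ x)ᵀ * Ph φ x‖ ≤
      2 * Real.sqrt n * μ := by
    intro x i
    obtain ⟨Y, hY⟩ : ∃ Y, Y = AdM B (U (x, i)) * Ph φ (x + unitv i) := ⟨_, rfl⟩
    have e1 : (Ph φ (x + unitv i))ᵀ * Ph φ (x + unitv i) = Yᵀ * Y := by
      rw [hY, Matrix.transpose_mul]
      calc (Ph φ (x + unitv i))ᵀ * Ph φ (x + unitv i) =
          (Ph φ (x + unitv i))ᵀ * ((AdM B (U (x, i)))ᵀ * AdM B (U (x, i))) *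
            Ph φ (x + unitv i) := by rw [AdM_orth', Matrix.mul_one]
        _ = _ := by simp only [Matrix.mul_assoc]
    have e2 : Yᵀ * Y - (Ph φ x)ᵀ * Ph φ x = Yᵀ * (Y - Ph φ x) + (Y - Ph φ x)ᵀ * Ph φ x := by
      rw [Matrix.mul_sub, Matrix.transpose_sub, Matrix.sub_mul]; abel
    have e3 : ‖Y‖ ≤ Real.sqrt n := by
      rw [hY, norm_orth (AdM_orth' B _)]; exact hP _
    have e4 : ‖Y - Ph φ x‖ ≤ μ := by rw [hY]; exact h x i
    rw [e1, e2]
    refine (norm_add_le _ _).trans ?_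
    have e5 : ‖Yᵀ * (Y - Ph φ x)‖ ≤ Real.sqrt n * μ := by
      refine (Matrix.frobenius_norm_mul _ _).trans ?_
      rw [norm_tr]
      exact mul_le_mul e3 e4 (norm_nonneg _) hn
    have e6 : ‖(Y - Ph φ x)ᵀ * Ph φ x‖ ≤ Real.sqrt n * μ := by
      refine (Matrix.frobenius_norm_mul _ _).trans ?_
      rw [norm_tr, mul_comm]
      exact mul_le_mul (hP x) e4 (norm_nonneg _) hn
    linarith
  have hκ : 0 ≤ 2 * Real.sqrt n * μ := by positivity
  have h2 := fun y => path_all (fun x => (Ph φ x)ᵀ * Ph φ x) (2 * Real.sqrt n * μ) hκ h1 y x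
  have hl : (0 : ℝ) < (l : ℝ) ^ D := by
    have : (0 : ℝ) < l := by exact_mod_cast Nat.pos_of_ne_zero (NeZero.ne l)
    positivity
  have hcard : (Fintype.card (Fin D → ZMod l) : ℝ) = (l : ℝ) ^ D := by
    rw [Fintype.card_fun, ZMod.card, Fintype.card_fin]; push_cast; rfl
  have h3 : (Ph φ x)ᵀ * Ph φ x - ((l : ℝ) ^ D)⁻¹ • (1 : Matrix (Fin n) (Fin n) ℝ) =
      ((l : ℝ) ^ D)⁻¹ • ∑ y, ((Ph φ x)ᵀ * Ph φ x - (Ph φ y)ᵀ * Ph φ y) := by
    rw [sum_sub_distrib, sum_S φ ho, sum_const, card_univ, smul_sub]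
    congr 1
    rw [← Nat.cast_smul_eq_nsmul ℝ, hcard, smul_smul, inv_mul_cancel₀ hl.ne', one_smul]
  rw [h3, norm_smul, Real.norm_eq_abs, abs_of_pos (inv_pos.mpr hl), inv_mul_le_iff₀ hl]
  refine (norm_sum_le _ _).trans ?_
  refine (sum_le_sum fun y _ => h2 y).trans (le_of_eq ?_)
  rw [sum_const, card_univ, nsmul_eq_mul, hcard]

end lat

theorem t_EVN : S_EVN := by
  intro N n D G _ B
  refine ⟨3 * D + 2, 64 * n ^ 3 * D ^ 3 + 4 * n ^ 2 * D + 1, ?_, ?_⟩
  · have : (0 : ℝ) ≤ 64 * n ^ 3 * D ^ 3 + 4 * n ^ 2 * D := by positivity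
    linarith
  intro l _ U lam φ hlam ho hen
  have hl1 : (1 : ℝ) ≤ l := by exact_mod_cast Nat.one_le_iff_ne_zero.mpr (NeZero.ne l)
  have hl0 : (0 : ℝ) < l := by linarith
  have hlD : (0 : ℝ) < (l : ℝ) ^ D := by positivity
  have hcard : (Fintype.card (Fin D → ZMod l) : ℝ) = (l : ℝ) ^ D := by
    rw [Fintype.card_fun, ZMod.card, Fintype.card_fin]; push_cast; rfl
  obtain ⟨μ, hμ⟩ : ∃ μ, μ = Real.sqrt (n * lam) := ⟨_, rfl⟩
  have hμ0 : 0 ≤ μ := by rw [hμ]; exact Real.sqrt_nonneg _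
  have hμ2 : μ ^ 2 = n * lam := by rw [hμ]; exact Real.sq_sqrt (by positivity)
  obtain ⟨r, hr⟩ : ∃ r, r = Real.sqrt n := ⟨_, rfl⟩
  have hr0 : 0 ≤ r := by rw [hr]; exact Real.sqrt_nonneg _
  have hr2 : r ^ 2 = n := by rw [hr]; exact Real.sq_sqrt (by positivity)
  have hst : ∀ x i, ‖AdM B (U (x, i)) * Ph φ (x + unitv i) - Ph φ x‖ ≤ μ := by
    intro x i
    rw [hμ]
    exact Real.le_sqrt_of_sq_le (step B U lam φ hen x i)
  have hclose := S_close B U μ hμ0 φ ho hst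
  rw [← hr] at hclose
  have htau : ∀ K : ℝ, (∀ x i, ‖AdM B (wind U x i) - 1‖ ^ 2 ≤ K) →
      tauW B U ≤ (l : ℝ) ^ D * (D * K) := by
    intro K hK
    unfold tauW
    have h1 : ∀ x i, ∑ a : Fin n, fro2 (Pool.Agent.Q77.LU.mt (wind U x i) * B.X a *
        (Pool.Agent.Q77.LU.mt (wind U x i))ᴴ - B.X a) ≤ K := by
      intro x i
      rw [fro_eq]; exact hK x i
    refine (sum_le_sum fun x _ => sum_le_sum fun i _ => h1 x i).trans (le_of_eq ?_)
    rw [sum_const, sum_const, card_univ, card_univ, Fintype.card_fin, nsmul_eq_mul, nsmul_eq_mul,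
      hcard]
  have hpos : 0 ≤ (l : ℝ) ^ (3 * D + 2) * lam := by positivity
  by_cases hcase : D * (l * (2 * r * μ)) ≤ ((l : ℝ) ^ D)⁻¹ / 2
  · have hb : ∀ x i, ‖AdM B (wind U x i) - 1‖ ^ 2 ≤
        4 * n ^ 2 * (l : ℝ) ^ (2 * D + 2) * lam := by
      intro x i
      obtain ⟨M, hM⟩ : ∃ M, M = AdM B (wind U x i) - 1 := ⟨_, rfl⟩
      have hw := wind_bound B U μ φ hst x i l
      have hz : l • (unitv i : Fin D → ZMod l) = 0 := by
        ext j
        simp [unitv]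
      rw [hz, add_zero] at hw
      have hM1 : ‖M * Ph φ x‖ ≤ l * μ := by
        rw [hM, Matrix.sub_mul, Matrix.one_mul]
        exact hw
      have e1 : ((l : ℝ) ^ D)⁻¹ • M = M * Ph φ x * (Ph φ x)ᵀ -
          M * (Ph φ x * (Ph φ x)ᵀ - ((l : ℝ) ^ D)⁻¹ • (1 : Matrix (Fin n) (Fin n) ℝ)) := by
        rw [Matrix.mul_sub, Matrix.mul_smul, Matrix.mul_one, Matrix.mul_assoc]
        abel
      have e2 : ((l : ℝ) ^ D)⁻¹ * ‖M‖ ≤ l * μ * r + ‖M‖ * (((l : ℝ) ^ D)⁻¹ / 2) := by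
        have e3 : ‖((l : ℝ) ^ D)⁻¹ • M‖ = ((l : ℝ) ^ D)⁻¹ * ‖M‖ := by
          rw [norm_smul, Real.norm_eq_abs, abs_of_pos (inv_pos.mpr hlD)]
        rw [← e3, e1]
        refine (norm_sub_le _ _).trans (add_le_add ?_ ?_)
        · refine (Matrix.frobenius_norm_mul _ _).trans ?_
          rw [norm_tr]
          refine mul_le_mul hM1 ?_ (norm_nonneg _) (by positivity)
          rw [hr]
          exact Real.le_sqrt_of_sq_le (Ph_le φ ho x)
        · refine (Matrix.frobenius_norm_mul _ _).trans ?_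
          rw [norm_swap]
          exact mul_le_mul_of_nonneg_left ((hclose x).trans hcase) (norm_nonneg _)
      have e4 : ‖M‖ ≤ 2 * l ^ (D + 1) * (r * μ) := by
        have e5 : ((l : ℝ) ^ D)⁻¹ * ‖M‖ ≤ 2 * (l * μ * r) := by linarith
        rw [inv_mul_le_iff₀ hlD] at e5
        refine e5.trans (le_of_eq ?_)
        rw [pow_succ]; ring
      rw [← hM]
      calc ‖M‖ ^ 2 ≤ (2 * l ^ (D + 1) * (r * μ)) ^ 2 :=
            pow_le_pow_left₀ (norm_nonneg _) e4 2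
        _ = 4 * (l : ℝ) ^ (2 * D + 2) * (r ^ 2 * μ ^ 2) := by
            rw [show 2 * D + 2 = (D + 1) * 2 by ring, pow_mul]; ring
        _ = 4 * n ^ 2 * (l : ℝ) ^ (2 * D + 2) * lam := by rw [hr2, hμ2]; ring
    refine (htau _ hb).trans ?_
    have e7 : (l : ℝ) ^ D * (D * (4 * n ^ 2 * (l : ℝ) ^ (2 * D + 2) * lam)) =
        4 * n ^ 2 * D * ((l : ℝ) ^ (3 * D + 2) * lam) := by
      rw [show 3 * D + 2 = D + (2 * D + 2) by ring, pow_add]; ring
    rw [e7, mul_assoc (64 * (n : ℝ) ^ 3 * D ^ 3 + 4 * n ^ 2 * D + 1)]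
    refine mul_le_mul_of_nonneg_right ?_ hpos
    have : (0 : ℝ) ≤ 64 * n ^ 3 * D ^ 3 := by positivity
    linarith
  · push Not at hcase
    refine (htau (4 * n) (fun x i => ad_le B _)).trans ?_
    have e1 : 1 < 4 * D * l ^ (D + 1) * (r * μ) := by
      have e2 : ((l : ℝ) ^ D)⁻¹ < 2 * (D * (l * (2 * r * μ))) := by linarith
      rw [inv_lt_iff_one_lt_mul₀ hlD] at e2
      refine e2.trans_le (le_of_eq ?_)
      rw [pow_succ]; ring
    have e3 : 1 ≤ (4 * D * (l : ℝ) ^ (D + 1) * (r * μ)) ^ 2 := by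
      nlinarith [e1]
    have e4 : (4 * D * (l : ℝ) ^ (D + 1) * (r * μ)) ^ 2 =
        16 * D ^ 2 * n ^ 2 * ((l : ℝ) ^ (2 * D + 2) * lam) := by
      rw [show 2 * D + 2 = (D + 1) * 2 by ring, pow_mul]
      have : (4 * D * (l : ℝ) ^ (D + 1) * (r * μ)) ^ 2 =
        16 * D ^ 2 * ((l : ℝ) ^ (D + 1)) ^ 2 * (r ^ 2 * μ ^ 2) := by ring
      rw [this, hr2, hμ2]; ring
    rw [e4] at e3
    calc (l : ℝ) ^ D * (D * (4 * n)) ≤ (l : ℝ) ^ D * (D * (4 * n)) *
          (16 * D ^ 2 * n ^ 2 * ((l : ℝ) ^ (2 * D + 2) * lam)) :=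
          le_mul_of_one_le_right (by positivity) e3
      _ = 64 * n ^ 3 * D ^ 3 * ((l : ℝ) ^ (3 * D + 2) * lam) := by
          rw [show 3 * D + 2 = D + (2 * D + 2) by ring, pow_add]; ring
      _ ≤ _ := by
          rw [mul_assoc (64 * (n : ℝ) ^ 3 * D ^ 3 + 4 * n ^ 2 * D + 1)]
          refine mul_le_mul_of_nonneg_right ?_ hpos
          have : (0 : ℝ) ≤ 4 * n ^ 2 * D := by positivity
          linarith

end

end Pool.Agent.Q151.LU.Evn
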