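import Pool.Agent.Q77.LU.StmU

set_option autoImplicit false

/-! # LU job PCR: Poincare inequality on the lattice torus -/

namespace Pool.Agent.Q151.LU.Pcr

open Finset
open Pool.Agent.Q77.LU (unitv S_PCR)

section

variable {A : Type} [AddCommGroup A] [Fintype A]

/-- the increment of `ζ` in the direction `v` -/
noncomputable def nu (ζ : A → ℝ) (v : A) : ℝ :=
  ‖(WithLp.toLp 2 (fun x => ζ (x + v) - ζ x) : EuclideanSpace ℝ A)‖

lemma nu_sq (ζ : A → ℝ) (v : A) : nu ζ v ^ 2 = ∑ x, (ζ (x + v) - ζ x) ^ 2 := by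
  unfold nu
  rw [EuclideanSpace.norm_sq_eq]
  apply sum_congr rfl
  intro x _
  rw [Real.norm_eq_abs, sq_abs]

lemma nu_nonneg (ζ : A → ℝ) (v : A) : 0 ≤ nu ζ v := norm_nonneg _

lemma nu_zero (ζ : A → ℝ) : nu ζ 0 = 0 := by
  have h : nu ζ 0 ^ 2 = 0 := by
    rw [nu_sq]
    simp
  exact pow_eq_zero_iff (two_ne_zero) |>.1 h

lemma nu_add (ζ : A → ℝ) (v w : A) : nu ζ (v + w) ≤ nu ζ v + nu ζ w := by
  have h1 : nu ζ (v + w) ≤ ‖(WithLp.toLp 2 (fun x => ζ (x + v + w) - ζ (x + v)) : EuclideanSpace ℝ A)‖ + nu ζ v := by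
    have e : (WithLp.toLp 2 (fun x => ζ (x + (v + w)) - ζ x) : EuclideanSpace ℝ A) =
        (WithLp.toLp 2 (fun x => ζ (x + v + w) - ζ (x + v)) : EuclideanSpace ℝ A) +
        (WithLp.toLp 2 (fun x => ζ (x + v) - ζ x) : EuclideanSpace ℝ A) := by
      rw [← WithLp.toLp_add]
      congr 1
      ext x
      simp only [Pi.add_apply]
      rw [add_assoc]
      ring
    unfold nu
    rw [e]
    exact norm_add_le _ _
  have h2 : ‖(WithLp.toLp 2 (fun x => ζ (x + v + w) - ζ (x + v)) : EuclideanSpace ℝ A)‖ = nu ζ w := by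
    have h3 : ‖(WithLp.toLp 2 (fun x => ζ (x + v + w) - ζ (x + v)) : EuclideanSpace ℝ A)‖ ^ 2 = nu ζ w ^ 2 := by
      rw [nu_sq, EuclideanSpace.norm_sq_eq]
      rw [← Equiv.sum_comp (Equiv.addRight v) (fun x => (ζ (x + w) - ζ x) ^ 2)]
      apply sum_congr rfl
      intro x _
      rw [Real.norm_eq_abs, sq_abs]
      rfl
    exact (pow_left_inj₀ (norm_nonneg _) (nu_nonneg _ _) two_ne_zero).1 h3
  rw [h2] at h1
  linarith

lemma nu_nsmul (ζ : A → ℝ) (v : A) (k : ℕ) : nu ζ (k • v) ≤ k * nu ζ v := by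
  induction k with
  | zero => simp [nu_zero]
  | succ k ih =>
    rw [succ_nsmul]
    refine (nu_add ζ _ _).trans ?_
    push_cast
    linarith

lemma nu_sum {ι : Type} (ζ : A → ℝ) (s : Finset ι) (v : ι → A) : nu ζ (∑ i ∈ s, v i) ≤ ∑ i ∈ s, nu ζ (v i) := by
  classical
  induction s using Finset.induction_on with
  | empty => simp [nu_zero]
  | insert a s ha ih =>
    rw [sum_insert ha, sum_insert ha]
    exact (nu_add ζ _ _).trans (by linarith)

lemma total (ζ : A → ℝ) (h : ∑ x, ζ x = 0) :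
    ∑ v, nu ζ v ^ 2 = 2 * (Fintype.card A) * ∑ x, ζ x ^ 2 := by
  have h1 : ∀ v, nu ζ v ^ 2 = 2 * ∑ x, ζ x ^ 2 - 2 * ∑ x, ζ (x + v) * ζ x := by
    intro v
    rw [nu_sq]
    have e1 : ∑ x, ζ (x + v) ^ 2 = ∑ x, ζ x ^ 2 := Equiv.sum_comp (Equiv.addRight v) (fun x => ζ x ^ 2)
    have e2 : ∑ x, (ζ (x + v) - ζ x) ^ 2 = ∑ x, ζ (x + v) ^ 2 + ∑ x, ζ x ^ 2 - 2 * ∑ x, ζ (x + v) * ζ x := by
      rw [mul_sum, ← sum_add_distrib, ← sum_sub_distrib]
      apply sum_congr rfl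
      intro x _
      ring
    rw [e2, e1]
    ring
  simp only [h1]
  rw [sum_sub_distrib, sum_const, card_univ, nsmul_eq_mul, ← mul_sum, sum_comm]
  have h2 : ∀ x, ∑ v, ζ (x + v) * ζ x = 0 := by
    intro x
    rw [← sum_mul]
    have : ∑ v, ζ (x + v) = ∑ v, ζ v := Equiv.sum_comp (Equiv.addLeft x) ζ
    rw [this, h, zero_mul]
  simp only [h2, sum_const_zero]
  ring

end

theorem t_PCR : S_PCR := by
  intro D
  refine ⟨2, D + 1, by linarith [Nat.cast_nonneg (α := ℝ) D], fun l _ ζ hζ => ?_⟩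
  obtain ⟨E, hE⟩ : ∃ E, E = ∑ x, ∑ i, (ζ (x + unitv i) - ζ x) ^ 2 := ⟨_, rfl⟩
  have hE2 : E = ∑ i, nu ζ (unitv i) ^ 2 := by
    rw [hE, sum_comm]
    apply sum_congr rfl
    intro i _
    rw [nu_sq]
  have hE0 : 0 ≤ E := by rw [hE2]; exact sum_nonneg fun i _ => sq_nonneg _
  rw [← hE]
  have hv : ∀ v : Fin D → ZMod l, nu ζ v ^ 2 ≤ (l : ℝ) ^ 2 * (D * E) := by
    intro v
    have h1 : v = ∑ i, (v i).val • (unitv i : Fin D → ZMod l) := by
      ext j
      rw [Finset.sum_apply, Finset.sum_eq_single j]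
      · simp [unitv]
      · intro i _ hij
        simp [unitv, Pi.single_eq_of_ne hij.symm]
      · intro h
        exact absurd (mem_univ j) h
    have h2 : nu ζ v ≤ l * ∑ i, nu ζ (unitv i) := by
      rw [h1, mul_sum]
      refine (nu_sum ζ _ _).trans (sum_le_sum fun i _ => ?_)
      refine (nu_nsmul ζ _ _).trans ?_
      apply mul_le_mul_of_nonneg_right _ (nu_nonneg _ _)
      exact_mod_cast (ZMod.val_lt (v i)).le
    have h3 : (∑ i, nu ζ (unitv i : Fin D → ZMod l)) ^ 2 ≤ D * E := by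
      have := sq_sum_le_card_mul_sum_sq (s := (univ : Finset (Fin D))) (f := fun i => nu ζ (unitv i : Fin D → ZMod l))
      rw [card_univ, Fintype.card_fin, ← hE2] at this
      exact this
    calc nu ζ v ^ 2 ≤ (l * ∑ i, nu ζ (unitv i)) ^ 2 := by
          have := nu_nonneg ζ v
          gcongr
      _ = (l : ℝ) ^ 2 * (∑ i, nu ζ (unitv i)) ^ 2 := by ring
      _ ≤ _ := by gcongr
  have htot := total ζ hζ
  have hM : (0 : ℝ) < Fintype.card (Fin D → ZMod l) := by exact_mod_cast Fintype.card_pos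
  have h4 : ∑ v : Fin D → ZMod l, nu ζ v ^ 2 ≤ Fintype.card (Fin D → ZMod l) * ((l : ℝ) ^ 2 * (D * E)) := by
    refine (sum_le_sum fun v _ => hv v).trans (le_of_eq ?_)
    rw [sum_const, card_univ, nsmul_eq_mul]
  rw [htot] at h4
  have h5 : 2 * ∑ x, ζ x ^ 2 ≤ (l : ℝ) ^ 2 * (D * E) := by
    have h6 : (Fintype.card (Fin D → ZMod l) : ℝ) * (2 * ∑ x, ζ x ^ 2) ≤
        Fintype.card (Fin D → ZMod l) * ((l : ℝ) ^ 2 * (D * E)) := by linarith
    exact le_of_mul_le_mul_left h6 hM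
  have h6 : 0 ≤ ∑ x, ζ x ^ 2 := sum_nonneg fun x _ => sq_nonneg _
  have h7 : (D : ℝ) * (l : ℝ) ^ 2 * E ≤ (D + 1) * (l : ℝ) ^ 2 * E := by
    gcongr
    linarith
  linarith

end Pool.Agent.Q151.LU.Pcr
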